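import Pool.Agent.Q193.LT.Sums
import Pool.Agent.Q193.LT.Per

/-!
# The period conjecture for pure Nori motives, dimension by dimension

Let `k` be a number field with an embedding in `ℂ`, and let `M` be the category of the pure Nori motives
over `k`, a semisimple abelian category with Tate twists `N ↦ N(a)`. For a separated scheme `X` of
finite type over `k` let `D.H i X` be the object of `M` given by the graded object of the weight
filtration of the Nori motive `H^i_c(X)`; for smooth projective `X` it is `h^i(X)`.

`P` consists of the de Rham realization, the Betti realization, the comparison isomorphism and, for each
motive `N`, the dimension of the motivic Galois group of `N`. The conjecture `GPC P N` says that the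
transcendence degree over `k` of the field of periods of `N` is this dimension.

For a trilinear form `T(x, y, z) = ∑ t_{ijl} x_i y_j z_l` with coefficients in `k`, in any numbers of
variables `x_1, …, x_a`, `y_1, …, y_b`, `z_1, …, z_c`, the affine cubic hypersurface `T(x, y, z) = 1` is
smooth over `k`.

**Theorem.** (1) The period conjecture is true for all pure Nori motives over `k` if and only if it is
true for all finite direct sums of Tate motives and of Tate twists of the motives `Gr^W H^i_c(T = 1)` of
the hypersurfaces `T(x, y, z) = 1` of the trilinear forms `T` over `k`.

(2) For all `n`, the period conjecture is true for all finite direct sums of Tate twists of motives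
`h^i(Y)` of smooth projective varieties `Y` of dimension at most `n` over `k` if and only if it is true
for all finite direct sums of Tate motives and of Tate twists of `Gr^W H^i_c(T = 1)` for trilinear forms
`T` over `k` such that one of the three blocks of variables has at most `n + 2` variables (the other two
blocks are arbitrary).

(3) Unconditionally, the period conjecture is true for the finite direct sums of Tate motives and Tate
twists of `Gr^W H^i_c(T = 1)` if one of the three blocks of variables of each `T` has at most two
variables.
-/

set_option autoImplicit false

open CategoryTheory CategoryTheory.Limits AlgebraicGeometry Pool.Agent.Y116.UV Pool.Agent.Z125.UN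
  Pool.Agent.Q193.LT

universe v u

namespace Pool.Agent.Results.MP_5d33ca_ag.DimensionByDimension

/-- **The period conjecture for pure Nori motives, dimension by dimension.** See the explanations above.
The known case used for the third part is the case of the Artin-Tate motives (the period fields are
algebraic over `k` or over `k(2πi)`, and `π` is transcendental). -/
theorem result {k : Type} [Field k] [NumberField k] [Algebra k ℂ] {M : Type u}
    [Category.{v} M] [Abelian M] {D : CompactData k M} (h : IsMotives D) {P : PeriodData k M}
    (hP : IsPeriod P) :
    (SumsHave D (OfProjAll D) (GPC P) ↔ SumsHave D (OfFormsAll D) (GPC P)) ∧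
    (∀ n : ℕ, SumsHave D (OfProj D n) (GPC P) ↔ SumsHave D (OfForms D (n + 2)) (GPC P)) ∧
    (SumsHave D (OfProj D 0) (GPC P) → SumsHave D (OfForms D 2) (GPC P)) :=
  ⟨sums_all_iff h.compact h.generated h.semisimple (GPC.factor hP),
    fun n => sums_dim_iff h.compact h.generated h.semisimple (GPC.factor hP) n,
    (sums_dim_iff h.compact h.generated h.semisimple (GPC.factor hP) 0).mp⟩

end Pool.Agent.Results.MP_5d33ca_ag.DimensionByDimension
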