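import Pool.Agent.Q23.MV.HypPer

/-!
# The 1-motives `[ℤ^n → Jac (C_e)]` of all hyperelliptic curves, all branch points and all points varying

Let `N = 2 g` be even and `C_e` the curve `y² = ∏ (x - e_r)` of genus `g` with the branch points `e_0, …, e_N` (and `∞`). Points
`(x_i, y_i)`, `i < n`, of `C_e` define a 1-motive `[ℤ^n → Jac (C_e)]` (by their differences to `∞`). Its periods are, besides
`2 π i`, the complete periods `∫ x^j dx / y` over the segments between successive branch points, and the incomplete ones,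
`u_ij = ∫^(x_i) x^j dx / y`, `j < N`. By the Riemann-Legendre relations all complete periods are algebraic functions of `e`, `π`
and of the `g (2 g + 1)` ones over the segments `[e_l, e_(l + 1)]` with `j ≤ l`. So the transcendence degree over `ℂ(e, x)` of the
field generated by the period functions is at most `2 g n + g (2 g + 1)`, and the period conjecture predicts that at algebraic
points which are general enough this is also the transcendence degree over `ℚ(π)` of the field generated by the periods.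

Let `U` be a connected open set of points `(e_0, …, e_N, x_1, …, x_n)`, with branches `y_i`, `u_ij` on `U`, and let `w_lj` be
analytic continuations to `U` of the complete periods, `j ≤ l < N`. (1) The `2 g n + g (2 g + 1)` functions `u_ij`, `w_lj` are
algebraically independent over `ℂ(e, x)`. (2) At the points with coordinates in a number field `F` of bounded degree, of height
at most `T`, they satisfy no polynomial relation of bounded degree and of height at most `T^A`, even with arbitrary complex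
constants (for instance powers of `π`), outside at most `C T^ε` hypersurfaces of bounded degree.
-/

set_option autoImplicit false

open Set Filter Topology NumberField

namespace Pool.Agent.Results.MP_5d33ca_ag.HyperellipticOneMotives

/-- The period `∫ x^j dx / √|∏ (x - e r)|` over the segment `[e l, e (l + 1)]`. -/
noncomputable def period {N : ℕ} (e : Fin (N + 1) → ℝ) (l j : Fin N) : ℝ :=
  ∫ x in (e l.castSucc)..(e l.succ), x ^ (j : ℕ) / √|∏ r, (x - e r)|

/-- The pairs `(l, j)` with `j ≤ l < N`; their number is `N (N + 1) / 2`. -/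
abbrev Lower (N : ℕ) : Type := {k : Fin N × Fin N // k.2 ≤ k.1}

/-- The branch points `e` of a point `(e, x)`. -/
def base {N n : ℕ} (z : Fin (N + 1) ⊕ Fin n → ℂ) : Fin (N + 1) → ℂ := fun r => z (Sum.inl r)

/-- On `U`, the set of the points `z = (e, x)`, `y i` is a continuous branch of `√(∏ (x_i - e_r))`, without zeros, `u i j` is
analytic in `(e, x_i)` and is an integral of `x^j dx / y` as a function of `x = x_i` (with integration constants depending
on `e`), and `w (l, j)`, `j ≤ l`, is an analytic function of `e` which coincides with the period `∫ x^j dx / √|∏ (x - e r)|`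
over `[e l, e (l + 1)]` for all real `e` in a neighbourhood of `e0`. -/
def Branches {N n : ℕ} (U : Set (Fin (N + 1) ⊕ Fin n → ℂ)) (e0 : Fin (N + 1) → ℝ)
    (y : Fin n → (Fin (N + 1) → ℂ) → ℂ → ℂ) (u : Fin n → Fin N → (Fin (N + 1) → ℂ) → ℂ → ℂ)
    (w : Lower N → (Fin (N + 1) → ℂ) → ℂ) : Prop :=
  (∀ i, ContinuousOn (fun z : Fin (N + 1) ⊕ Fin n → ℂ => y i (base z) (z (Sum.inr i))) U) ∧
  (∀ i j, AnalyticOnNhd ℂ (fun z : Fin (N + 1) ⊕ Fin n → ℂ => u i j (base z) (z (Sum.inr i))) U) ∧
  (∀ z ∈ U, ∀ i, y i (base z) (z (Sum.inr i)) ≠ 0 ∧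
    y i (base z) (z (Sum.inr i)) ^ 2 = ∏ r, (z (Sum.inr i) - z (Sum.inl r)) ∧
    ∀ j, HasDerivAt (u i j (base z)) (z (Sum.inr i) ^ (j : ℕ) / y i (base z) (z (Sum.inr i))) (z (Sum.inr i))) ∧
  (∀ k, AnalyticOnNhd ℂ (fun z : Fin (N + 1) ⊕ Fin n → ℂ => w k (base z)) U) ∧
  ∀ᶠ e : Fin (N + 1) → ℝ in 𝓝 e0, ∀ k : Lower N, w k (fun r => (e r : ℂ)) = ((period e k.1.1 k.1.2 : ℝ) : ℂ)

/-- The functions `u i j` (index `inl (i, j)`) and `w k` (index `inr k`) of the point `z = (e, x)`. -/
noncomputable def value {N n : ℕ} (u : Fin n → Fin N → (Fin (N + 1) → ℂ) → ℂ → ℂ) (w : Lower N → (Fin (N + 1) → ℂ) → ℂ) :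
    (Fin n × Fin N) ⊕ Lower N → (Fin (N + 1) ⊕ Fin n → ℂ) → ℂ
  | Sum.inl a, z => u a.1 a.2 (base z) (z (Sum.inr a.1))
  | Sum.inr k, z => w k (base z)

/-- For every compact subset `L` of `U` and all `m`, `g`, `d`, `A` and `ε > 0` there are `D`, `C`, `T₀` such that for every
number field `F` of degree at most `m`, every embedding `ι` of `F` in `ℂ`, all complex numbers `ξ_1, …, ξ_g` and all
`T ≥ T₀` there are at most `C T^ε` hypersurfaces `Q = 0` of degree at most `D` with the following property. If `x` is a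
point with coordinates in `F` outside these hypersurfaces, with image in `L`, whose coordinates are quotients of two
integers of `F` all of whose conjugates have absolute value at most `T`, then no nonzero polynomial `P` of degree at most
`d` in each variable, with coefficients of the form `∑ ξ_a ι(c_a)`, where the `c_a` are integers of `F` all of whose
conjugates have absolute value at most `T ^ A`, vanishes at the numbers `f y (ι x)`. -/
def FewRelations {X κ : Type} [Fintype X] (U : Set (X → ℂ)) (f : κ → (X → ℂ) → ℂ) : Prop :=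
  ∀ L : Set (X → ℂ), IsCompact L → L ⊆ U → ∀ (m g d : ℕ) (A ε : ℝ), 0 < ε →
    ∃ (D : ℕ) (C T₀ : ℝ), ∀ (F : Type) [Field F] [NumberField F], Module.finrank ℚ F ≤ m → ∀ (ι : F →+* ℂ)
      (ξ : Fin g → ℂ) (T : ℝ), T₀ ≤ T → ∃ Φ : Finset (MvPolynomial X ℂ), (Φ.card : ℝ) ≤ C * T ^ ε ∧
        (∀ Q ∈ Φ, Q ≠ 0 ∧ Q.totalDegree ≤ D) ∧
        ∀ x : X → F, (fun j => ι (x j)) ∈ L →
          (∀ j, ∃ a b : 𝓞 F, b ≠ 0 ∧ (∀ φ : F →+* ℂ, ‖φ a‖ ≤ T ∧ ‖φ b‖ ≤ T) ∧ x j = a / b) →
          (∀ Q ∈ Φ, MvPolynomial.eval (fun j => ι (x j)) Q ≠ 0) →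
          ∀ P : MvPolynomial κ ℂ, P ≠ 0 → (∀ y, P.degreeOf y ≤ d) →
            (∀ s, ∃ c : Fin g → 𝓞 F, (∀ a (φ : F →+* ℂ), ‖φ (c a)‖ ≤ T ^ A) ∧ P.coeff s = ∑ a, ξ a * ι (c a)) →
            MvPolynomial.aeval (fun y => f y (fun j => ι (x j))) P ≠ 0

open Pool.Agent.Q23.MV

/-- the polynomial `∏ (X - e_r)` -/
noncomputable def pol {N : ℕ} (e : Fin (N + 1) → ℝ) : Polynomial ℝ := ∏ r, (Polynomial.X - Polynomial.C (e r))

theorem pol_eval {N : ℕ} (e : Fin (N + 1) → ℝ) (t : ℝ) : (pol e).eval t = ∏ r, (t - e r) := by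
  rw [pol, Polynomial.eval_prod]
  simp

theorem pol_sq {N : ℕ} (e : Fin (N + 1) → ℝ) (he : StrictMono e) : Squarefree (pol e) ∧ N + 1 ≤ (pol e).natDegree := by
  constructor
  · refine Polynomial.Separable.squarefree ?_
    rw [pol]
    exact (Polynomial.separable_prod_X_sub_C_iff).2 he.injective
  · rw [pol, Polynomial.natDegree_finsetProd_X_sub_C_eq_card]
    simp

/-- **The 1-motives `[ℤ^n → Jac (C_e)]`.** Let `N` be even and let `U` be a connected open set of points
`(e_0, …, e_N, x_1, …, x_n)` which contains a real point `(e0, x0)` with `e0_0 < ⋯ < e0_N` and `∏_r (x0_i - e0_r) > 0` for all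
`i`, and let `y`, `u`, `w` be branches on `U` as described under `Branches`. (1) No nonzero polynomial in the functions `u i j`
(`i < n`, `j < N`) and `w k` (`k` in `Lower N`) with coefficients in `ℂ[e, x]` vanishes identically on `U`. (2) There are few
relations between their values in the sense of `FewRelations`. -/
theorem result : ∀ (N n : ℕ), Even N → ∀ U : Set (Fin (N + 1) ⊕ Fin n → ℂ), IsOpen U → IsPreconnected U →
    ∀ (e0 : Fin (N + 1) → ℝ) (x0 : Fin n → ℝ), StrictMono e0 → (∀ i, 0 < ∏ r, (x0 i - e0 r)) →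
      Sum.elim (fun r => (e0 r : ℂ)) (fun i => (x0 i : ℂ)) ∈ U →
      ∀ (y : Fin n → (Fin (N + 1) → ℂ) → ℂ → ℂ) (u : Fin n → Fin N → (Fin (N + 1) → ℂ) → ℂ → ℂ)
        (w : Lower N → (Fin (N + 1) → ℂ) → ℂ), Branches U e0 y u w →
        (∀ P : MvPolynomial ((Fin n × Fin N) ⊕ Lower N) (MvPolynomial (Fin (N + 1) ⊕ Fin n) ℂ), P ≠ 0 →
          ∃ z ∈ U, MvPolynomial.eval₂ (MvPolynomial.eval z) (fun a => value u w a z) P ≠ 0) ∧
        FewRelations U (value u w) := by
  classical
  intro N n hN U hU hUc e0 x0 he0 hx0 h0 y u w ⟨hy, hu, hyu, hwa, hw⟩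
  have hpt : rp e0 x0 ∈ U := h0
  have ind : ∀ p : MvPolynomial ((Fin n × Fin N) ⊕ Lower N) (MvPolynomial (Fin (N + 1) ⊕ Fin n) ℂ),
      (∀ z ∈ U, Pool.Agent.Y890.MV.evM (value u w) z p = 0) → p = 0 := by
    refine evM_of_AI U (value u w) ?_
    have h1 := hyp_ind (p := N + 1) (n := n) (m := N) (κ := Lower N) pol e0 x0 (by
      filter_upwards [strictMono_near e0 he0] with e he
      exact pol_sq e he) (fun i => by
      have hc : Continuous fun q : (Fin (N + 1) → ℝ) × ℝ => ∏ r, (q.2 - q.1 r) :=
        continuous_finsetProd _ fun r _ => continuous_snd.sub ((continuous_apply r).comp continuous_fst)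
      have h2 : ∀ᶠ q : (Fin (N + 1) → ℝ) × ℝ in 𝓝 (e0, x0 i), 0 < ∏ r, (q.2 - q.1 r) :=
        hc.continuousAt.eventually (lt_mem_nhds (by exact hx0 i))
      filter_upwards [h2] with q hq
      rw [pol_eval]
      exact hq) U hU hpt y u hy (fun i μ x hx => by
        have h2 := (hyu _ hx i).2.1
        rw [pol_eval]
        push_cast
        exact h2) (fun i j z hz => (hyu z hz i).2.2 j) w (fun P hP => per_ind hN e0 he0 w hw P hP)
    refine h1.congr fun a z _ => ?_
    rcases a with (a | k) | j
    · rfl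
    · rfl
    · rfl
  refine ⟨fun P hP => ?_, ?_⟩
  · by_contra hcon
    push Not at hcon
    exact hP (ind P hcon)
  · intro Lc hLc hLU m g d A ε hε
    have han : ∀ a, AnalyticOnNhd ℂ (value u w a) U := by
      rintro (a | k)
      · exact hu a.1 a.2
      · exact hwa k
    exact mvFew hUc hU ⟨_, h0⟩ han ind Lc hLc hLU m g d A ε hε

end Pool.Agent.Results.MP_5d33ca_ag.HyperellipticOneMotives
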