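import Mathlib
import Pool.Agent.Q217.MZ.Tate

/-!
# Powers of `2 π i` and multiple zeta values: relations of bounded degree are stuffle relations

The numbers `(2 π i) ^ k ζ(s_1, ..., s_r) ζ(t_1, ..., t_q) ...`, `k ∈ ℤ`, are periods of mixed Tate Nori
motives over `ℚ`.  The period conjecture says that all relations between them come from relations between the
motives, such as the stuffle relations between multiple zeta values.  For words with arguments `a_i n + b_i`,
`a_i ≥ 1`, growing with `n`, we show that this is so for all relations between a fixed number of products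
whose coefficients are integral Laurent polynomials in `2 π i` of bounded degree and height at most `C ^ n`:
such a relation is a consequence of the stuffle relations, over `ℤ[(2 π i)^{±1}]` with `2 π i` as a variable.

The starting file `MP_e54452_nt.StuffleRelations` has rational integers as coefficients, without `π`.  The
proof combines its functions of words with the transcendence measure of `π` and the estimate
`Pool.Agent.Y760.PZ.core_v` of the starting files.
-/

set_option autoImplicit false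

namespace Pool.Agent.Results.MP_5d33ca_ag.MultizetaAndTwoPiI

/-- `trunc [s_1, ..., s_r] m` is the sum of `∏ k_i ^ (-s_i)` over `m > k_1 > ... > k_r ≥ 1` -/
noncomputable def trunc : List ℕ → ℕ → ℝ
  | [], _ => 1
  | s :: l, m => ∑ j ∈ Finset.Ico 1 m, trunc l j / (j : ℝ) ^ s

/-- the multiple zeta value `ζ(s_1, ..., s_r)`, `s_1` belongs to the largest variable -/
noncomputable def mzv : List ℕ → ℝ
  | [] => 1
  | s :: l => ∑' k : ℕ, trunc l (k + 1) / ((k + 1 : ℕ) : ℝ) ^ s

/-- for a word `w = [(a_1, b_1), ..., (a_r, b_r)]` with `a_i ≥ 1`, `b_i ≥ 0`, the multiple zeta value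
`ζ(a_1 n + b_1, ..., a_r n + b_r)` -/
noncomputable def zeta (n : ℕ) (w : List (ℕ+ × ℕ)) : ℝ :=
  mzv (w.map fun x => (x.1 : ℕ) * n + x.2)

/-- the stuffle product of two words, as a list of words (letters are added componentwise) -/
def stuffle : List (ℕ+ × ℕ) → List (ℕ+ × ℕ) → List (List (ℕ+ × ℕ))
  | [], v => [v]
  | x :: u, [] => [x :: u]
  | x :: u, y :: v => (stuffle u (y :: v)).map (x :: ·) ++ (stuffle (x :: u) v).map (y :: ·) ++
      (stuffle u v).map ((x + y) :: ·)
termination_by u v => u.length + v.length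

/-- the stuffle product of several words -/
def stuffles : List (List (ℕ+ × ℕ)) → List (List (ℕ+ × ℕ))
  | [] => [[]]
  | u :: M => (stuffles M).flatMap (stuffle u)

/-- the coefficient of `(2 π i) ^ k` times the word `w` in the stuffle expansion of the combination
`∑ c M k (2 π i) ^ k • M` of the products `M ∈ 𝓜` -/
def coeff (𝓜 : Finset (List (List (ℕ+ × ℕ)))) (c : List (List (ℕ+ × ℕ)) → ℤ → ℤ)
    (w : List (ℕ+ × ℕ)) (k : ℤ) : ℤ := ∑ M ∈ 𝓜, c M k * ((stuffles M).countP (· = w) : ℤ)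

/-- the value `∑ c M k (2 π i) ^ k ∏_{u ∈ M} ζ(u(n))`, the sum over `M ∈ 𝓜` and `-D ≤ k ≤ D` -/
noncomputable def value (𝓜 : Finset (List (List (ℕ+ × ℕ)))) (D : ℕ)
    (c : List (List (ℕ+ × ℕ)) → ℤ → ℤ) (n : ℕ) : ℂ :=
  ∑ M ∈ 𝓜, ∑ k ∈ Finset.Icc (-(D : ℤ)) D, (c M k : ℂ) * (2 * Real.pi * Complex.I) ^ k *
    (((M.map fun u => zeta n u).prod : ℝ) : ℂ)

/-- Let `𝓜` be a finite set of products of words and `D` a natural number. There are `B, C > 1` and `n0`
such that for every `n ≥ n0` and all integers `c M k`, `-D ≤ k ≤ D`, with `|c M k| ≤ C ^ n`: either all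
coefficients of the stuffle expansion of `∑ c M k (2 π i) ^ k • M` vanish (and then the value
`∑ c M k (2 π i) ^ k ∏_{u ∈ M} ζ(u(m))` is `0` for every `m ≥ 2`), or the value at `n` is larger than
`B ^ (-n)` in absolute value. -/
theorem result (𝓜 : Finset (List (List (ℕ+ × ℕ)))) (D : ℕ) :
    ∃ B C : ℝ, 1 < B ∧ 1 < C ∧ ∃ n0 : ℕ, ∀ n : ℕ, n0 ≤ n → ∀ c : List (List (ℕ+ × ℕ)) → ℤ → ℤ,
      (∀ M ∈ 𝓜, ∀ k ∈ Finset.Icc (-(D : ℤ)) D, |(c M k : ℝ)| ≤ C ^ n) →
      ((∀ w, ∀ k ∈ Finset.Icc (-(D : ℤ)) D, coeff 𝓜 c w k = 0) ∧ ∀ m : ℕ, 2 ≤ m → value 𝓜 D c m = 0) ∨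
        (B ^ n)⁻¹ < ‖value 𝓜 D c n‖ := by
  have h1 : ∀ l m, trunc l m = Pool.Agent.TH507.WD.hr l m := by
    intro l
    induction l with
    | nil => intro m; rw [trunc, Pool.Agent.TH507.WD.hr]
    | cons s l ih =>
      intro m
      rw [trunc, Pool.Agent.TH507.WD.hr]
      exact Finset.sum_congr rfl fun j _ => by rw [ih]
  have h2 : ∀ n w, zeta n w = Pool.Agent.TH507.WD.mz (Pool.Agent.TH507.WD.ar n w) := by
    intro n w
    rw [zeta]
    show mzv (Pool.Agent.TH507.WD.ar n w) = Pool.Agent.TH507.WD.mz (Pool.Agent.TH507.WD.ar n w)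
    cases Pool.Agent.TH507.WD.ar n w with
    | nil => rw [mzv, Pool.Agent.TH507.WD.mz]
    | cons s l =>
      rw [mzv, Pool.Agent.TH507.WD.mz]
      exact tsum_congr fun k => by rw [h1]
  have h3 : ∀ u v, stuffle u v = Pool.Agent.TH507.WD.st u v := by
    intro u v
    induction u, v using Pool.Agent.TH507.WD.st.induct with
    | case1 v => rw [stuffle, Pool.Agent.TH507.WD.st]
    | case2 x u => rw [stuffle, Pool.Agent.TH507.WD.st]
    | case3 x u y v ih1 ih2 ih3 => rw [stuffle, Pool.Agent.TH507.WD.st, ih1, ih2, ih3]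
  have h4 : ∀ M, stuffles M = Pool.Agent.TH507.WD.stl M := by
    intro M
    induction M with
    | nil => rw [stuffles, Pool.Agent.TH507.WD.stl]
    | cons u M ih =>
      rw [stuffles, Pool.Agent.TH507.WD.stl, ih]
      congr 1
      funext v
      exact h3 u v
  have h5 : ∀ (c : List (List (ℕ+ × ℕ)) → ℤ → ℤ) w k, coeff 𝓜 c w k =
      Pool.Agent.TH507.WD.co 𝓜 (fun M => c M k) w := by
    intro c w k
    rw [coeff, Pool.Agent.TH507.WD.co]
    simp only [h4]
  have h6 : ∀ c n, value 𝓜 D c n = Pool.Agent.Q217.MZ.val2 𝓜 D c n := by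
    intro c n
    rw [value, Pool.Agent.Q217.MZ.val2]
    simp only [h2]
    rfl
  obtain ⟨B, C, hB, hC, n0, h⟩ := Pool.Agent.Q217.MZ.tate_main 𝓜 D
  refine ⟨B, C, hB, hC, n0, fun n hn c hc => ?_⟩
  -- only the coefficients with `-D ≤ k ≤ D` matter
  set c' : List (List (ℕ+ × ℕ)) → ℤ → ℤ := fun M k => if k ∈ Finset.Icc (-(D : ℤ)) D then c M k else 0 with hc'
  have hcc : ∀ M, ∀ k ∈ Finset.Icc (-(D : ℤ)) D, c' M k = c M k := fun M k hk => by
    simp only [hc', if_pos hk]
  have hco : ∀ w, ∀ k ∈ Finset.Icc (-(D : ℤ)) D, Pool.Agent.TH507.WD.co 𝓜 (fun M => c' M k) w =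
      coeff 𝓜 c w k := by
    intro w k hk
    rw [h5, Pool.Agent.TH507.WD.co, Pool.Agent.TH507.WD.co]
    exact Finset.sum_congr rfl fun M _ => by rw [hcc M k hk]
  have hv : ∀ m, Pool.Agent.Q217.MZ.val2 𝓜 D c' m = value 𝓜 D c m := by
    intro m
    rw [h6, Pool.Agent.Q217.MZ.val2, Pool.Agent.Q217.MZ.val2]
    exact Finset.sum_congr rfl fun M _ => Finset.sum_congr rfl fun k hk => by rw [hcc M k hk]
  by_cases hw : ∃ w, ∃ k ∈ Finset.Icc (-(D : ℤ)) D,
      Pool.Agent.TH507.WD.co 𝓜 (fun M => c' M k) w ≠ 0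
  · right
    rw [← hv]
    refine h n hn c' (fun M hM k => ?_) hw
    by_cases hk : k ∈ Finset.Icc (-(D : ℤ)) D
    · rw [hcc M k hk]
      exact hc M hM k hk
    · simp only [hc', if_neg hk, Int.cast_zero, abs_zero]
      exact pow_nonneg (by linarith) n
  · left
    push Not at hw
    refine ⟨fun w k hk => by rw [← hco w k hk, hw w k hk], fun m hm => ?_⟩
    rw [← hv]
    exact Pool.Agent.Q217.MZ.tate_zero hm 𝓜 D c' hw

end Pool.Agent.Results.MP_5d33ca_ag.MultizetaAndTwoPiI
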