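import Pool.Agent.Q23.AQ.Comb
import Pool.Agent.Q23.AQ.Few
import Pool.Agent.TH818.AP.LiInd
import Pool.Agent.TH818.AP.LiLoc

/-!
# Periods of elliptic curves and polylogarithms jointly, at almost all algebraic points

Let `α_1 > ⋯ > α_N > 0` and `γ_1 < ⋯ < γ_N < 1` be real numbers (rational numbers, say) and put
`λ_j(t) = (t - α_j) / (γ_j - α_j)`. For `t ∈ (α_1, γ_1)` we consider the periods `K(λ_j)`, `E(λ_j)`, `K(1 - λ_j)` of the
Legendre curves `y² = x (x - 1) (x - λ_j(t))` together with the periods `log t`, `Li_1(t)`, …, `Li_w(t)` of the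
polylogarithm motive of `t`. The motive `⊕_j H¹(E_{λ_j(t)}) ⊕ (polylogarithm motive)` has for generic `t` a motivic Galois
group of dimension `3 N + w + 2`, and its periods are generated, over `ℚ(2 π i)`, by these `3 N + w + 1` numbers; the
period conjecture predicts that they are algebraically independent over `ℚ(2 π i)` for all algebraic `t` outside a small
set. We prove that this holds, for relations of bounded degree and polynomially bounded height, even for approximate
relations and over arbitrary finitely generated rings of constants instead of `ℤ[2 π i]`, for almost all algebraic points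
of bounded degree and almost all `n`-tuples of them, inside any given finite set of such points.
-/

set_option autoImplicit false

open Set Filter Topology NumberField

namespace Pool.Agent.Results.MP_5d33ca_ag.PolylogarithmsAndLegendre

/-- The exceptional `n`-tuples of elements of the finite subset `X` of the number field `F ⊆ ℂ`: there is a polynomial `P`
of degree at most `d` in each variable, with coefficients of the form `∑ ξ_a ι(c_a)`, where the `c_a` are integers of `F`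
all of whose conjugates have absolute value at most `T ^ A`, such that the value of `P` at the numbers `f y (ι (q h))` is
at most `T ^ (-B)` times the absolute value of some nonzero coefficient of `P`. -/
def Exceptional {κ : Type} (f : κ → ℝ → ℝ) (n d : ℕ) {g : ℕ} (F : Type) [Field F] [NumberField F] (ι : F →+* ℂ)
    (ξ : Fin g → ℂ) (X : Finset F) (A B T : ℝ) : Set (Fin n → F) :=
  {q | (∀ h, q h ∈ X) ∧ ∃ P : MvPolynomial (Fin n × κ) ℂ, (∀ x, P.degreeOf x ≤ d) ∧
    (∀ s, ∃ c : Fin g → 𝓞 F, (∀ a (φ : F →+* ℂ), ‖φ (c a)‖ ≤ T ^ A) ∧ P.coeff s = ∑ a, ξ a * ι (c a)) ∧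
    ∃ s₀, P.coeff s₀ ≠ 0 ∧ ‖MvPolynomial.aeval (fun x : Fin n × κ => ((f x.2 (ι (q x.1)).re : ℝ) : ℂ)) P‖ ≤
      T ^ (-B) * ‖P.coeff s₀‖}

/-- For all `m`, `n`, `g`, `d`, `A` and `ε > 0` there are `B`, `C`, `T₀` such that for every number field `F` of degree at
most `m`, every embedding `ι` of `F` in `ℂ`, all complex numbers `ξ_1, …, ξ_g`, all `T ≥ T₀` and every finite set `X` of
elements of `F` whose images are real numbers of `[a, b]` and which are quotients of two integers of `F` all of whose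
conjugates have absolute value at most `T`, the number of exceptional `n`-tuples of `X ^ n` is at most
`C T^ε |X|^(n - 1)`. -/
def FewExceptions {κ : Type} (f : κ → ℝ → ℝ) (a b : ℝ) : Prop :=
  ∀ (m n g d : ℕ) (A ε : ℝ), 0 < ε → ∃ B C T₀ : ℝ, ∀ (F : Type) [Field F] [NumberField F],
    Module.finrank ℚ F ≤ m → ∀ (ι : F →+* ℂ) (ξ : Fin g → ℂ) (T : ℝ), T₀ ≤ T → ∀ X : Finset F,
      (∀ x ∈ X, (∃ t : ℝ, a ≤ t ∧ t ≤ b ∧ ι x = t) ∧
        ∃ a b : 𝓞 F, b ≠ 0 ∧ (∀ φ : F →+* ℂ, ‖φ a‖ ≤ T ∧ ‖φ b‖ ≤ T) ∧ x = a / b) →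
      ((Exceptional f n d F ι ξ X A B T).ncard : ℝ) ≤ C * T ^ ε * (X.card : ℝ) ^ (n - 1)

/-- The complete elliptic integral of the first kind, `K(s) = ∫_0^{π/2} (1 - s sin²θ)^(-1/2) dθ`. -/
noncomputable def K (s : ℝ) : ℝ := ∫ θ in (0 : ℝ)..(Real.pi / 2), 1 / √(1 - s * Real.sin θ ^ 2)

/-- The complete elliptic integral of the second kind, `E(s) = ∫_0^{π/2} (1 - s sin²θ)^(1/2) dθ`. -/
noncomputable def E (s : ℝ) : ℝ := ∫ θ in (0 : ℝ)..(Real.pi / 2), √(1 - s * Real.sin θ ^ 2)

/-- The polylogarithm `Li_k(t) = ∑_{n ≥ 1} t ^ n / n ^ k`. -/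
noncomputable def Li (k : ℕ) (t : ℝ) : ℝ := ∑' n : ℕ, t ^ (n + 1) / ((n : ℝ) + 1) ^ k

/-- The `3 N + w + 1` functions `K(s)`, `E(s)`, `K(1 - s)` for `s = (t - α_j) / (γ_j - α_j)`, `j < N`, and `log t`,
`Li_1(t)`, …, `Li_w(t)`. -/
noncomputable def fn {N w : ℕ} (α γ : Fin N → ℝ) (z : (Fin N × Fin 3) ⊕ Fin (w + 1)) (t : ℝ) : ℝ :=
  match z with
  | Sum.inl (j, i) => ![K ((t - α j) / (γ j - α j)), E ((t - α j) / (γ j - α j)), K (1 - (t - α j) / (γ j - α j))] i
  | Sum.inr k => if (k : ℕ) = 0 then Real.log t else Li k t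

/-- Let `α_1 > ⋯ > α_N > 0`, `γ_1 < ⋯ < γ_N < 1`, `0 < a < b < 1` and `α_1 < a`, `b < γ_1`. Then there are few exceptions
in `[a, b]` for the `3 N + w + 1` functions `fn α γ`. -/
theorem result {N : ℕ} (w : ℕ) (α γ : Fin N → ℝ) (hα : StrictAnti α) (hγ : StrictMono γ) (hα0 : ∀ j, 0 < α j)
    (hγ1 : ∀ j, γ j < 1) (a b : ℝ) (ha : 0 < a) (hab : a < b) (hb : b < 1) (h : ∀ j, α j < a ∧ b < γ j) :
    FewExceptions (fn (w := w) α γ) a b := by
  intro m n g d A ε hε
  set u : Fin (w + 1) → ℝ → ℝ := fun k t => TH818.AP.pl (k : ℕ) t with hu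
  have huan : ∀ k, ∀ t ∈ Ioo (0 : ℝ) 1, AnalyticAt ℝ (u k) t := by
    intro k t ht
    simp only [hu, TH818.AP.pl]
    by_cases hk : (k : ℕ) = 0
    · simp only [hk, if_true]
      exact analyticAt_log ht.1
    · simp only [hk, if_false]
      exact TH818.AP.liAn _ t ⟨by linarith [ht.1], ht.2⟩
  have hind : ∀ d : ℕ, TH818.AP.RIndep (fun (e : ((Fin N × Fin 3) ⊕ Fin (w + 1)) → Fin (d + 1)) (t : ℝ) =>
      ∏ p, Sum.elim (fun z : Fin N × Fin 3 => TH818.AP.KC (α z.1) (γ z.1) z.2) u p t ^ (e p : ℕ)) a b := by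
    intro d
    refine Q23.AQ.comb_leg u 0 1 a b ha.le hab hb.le (fun k t ht => huan k t ht) ?_ α γ hα hγ
      (fun j => (h j).1.trans (hab.trans (h j).2)) hα0 hγ1 (fun j => ⟨(h j).1.le, (h j).2.le⟩)
    intro a' b' ha' hab' hb'
    exact TH818.AP.liInd_of TH818.AP.liAn TH818.AP.liLoc w d a' b' (ha.trans_le ha') hab' (lt_of_le_of_lt hb' hb)
  have hfn : fn (w := w) α γ = Sum.elim (fun z : Fin N × Fin 3 => TH818.AP.KC (α z.1) (γ z.1) z.2) u := by
    funext z t
    rcases z with ⟨j, i⟩ | k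
    · have hne : γ j - α j ≠ 0 := by linarith [(h j).1, (h j).2]
      fin_cases i
      · rfl
      · rfl
      · show K (1 - (t - α j) / (γ j - α j)) = TH818.AR.KK ((γ j - t) / (γ j - α j))
        have : 1 - (t - α j) / (γ j - α j) = (γ j - t) / (γ j - α j) := by
          field_simp
          ring
        rw [this]
        rfl
    · rfl
  rw [hfn]
  refine Q23.AQ.fewR _ a b ?_ hind m n g d A ε hε
  rintro (z | k) t ht
  · exact TH818.AP.kc_an _ _ ((h z.1).1.trans (hab.trans (h z.1).2)) z.2 t ((h z.1).1.trans_le ht.1)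
      (lt_of_le_of_lt ht.2 (h z.1).2)
  · exact huan k t ⟨ha.trans_le ht.1, lt_of_le_of_lt ht.2 hb⟩

end Pool.Agent.Results.MP_5d33ca_ag.PolylogarithmsAndLegendre
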